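import Mathlib

/-!
# Zero-cycles modulo rational equivalence on subsets of projective space
-/

set_option autoImplicit false

open scoped LinearAlgebra.Projectivization

namespace Pool.Agent.Chow0

variable {ι : Type} [Fintype ι]

/-- The linear form `∑ x_i λ_i` in the variables `λ_i`. -/
noncomputable def linForm (x : ι → ℂ) : MvPolynomial ι ℂ :=
  ∑ i, MvPolynomial.C (x i) * MvPolynomial.X i

/-- The Chow form of an effective zero-cycle of a projective space: the product of the linear forms
`∑ x_i λ_i` over the points `x` of the cycle (defined up to a nonzero constant). -/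
noncomputable def chowForm (s : Multiset (ℙ ℂ (ι → ℂ))) : MvPolynomial ι ℂ :=
  (s.map fun p => linForm p.rep).prod

/-- The polynomial `G` is a Chow form of the effective zero-cycle `s` of `S`. -/
def IsChowForm (S : Set (ℙ ℂ (ι → ℂ))) (G : MvPolynomial ι ℂ) (s : Multiset S) : Prop :=
  ∃ c : ℂ, c ≠ 0 ∧ G = MvPolynomial.C c * chowForm (s.map Subtype.val)

/-- The effective zero-cycles `s₀` and `s₁` of `S` are members (for `t = 0` and `t = 1`) of an
algebraic family of effective zero-cycles of `S` parametrised by the complement of a finite subset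
of the affine line: there is a polynomial in `t` whose value at each `t` outside a finite set is the
Chow form of an effective zero-cycle of `S`, and whose values at `0` and `1` are Chow forms of `s₀`
and `s₁`. -/
def IsLink (S : Set (ℙ ℂ (ι → ℂ))) (s₀ s₁ : Multiset S) : Prop :=
  ∃ F : Polynomial (MvPolynomial ι ℂ),
    (∀ᶠ t : ℂ in Filter.cofinite, ∃ s : Multiset S, IsChowForm S (F.eval (MvPolynomial.C t)) s) ∧
    IsChowForm S (F.eval (MvPolynomial.C 0)) s₀ ∧ IsChowForm S (F.eval (MvPolynomial.C 1)) s₁

/-- The zero-cycles of `S`. -/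
abbrev Z0 (S : Set (ℙ ℂ (ι → ℂ))) : Type := FreeAbelianGroup S

/-- The zero-cycle attached to a multiset of points. -/
def cyc {S : Set (ℙ ℂ (ι → ℂ))} (s : Multiset S) : Z0 S :=
  (s.map FreeAbelianGroup.of).sum

/-- The zero-cycles of `S` which are rationally equivalent to zero. -/
def ratTriv (S : Set (ℙ ℂ (ι → ℂ))) : AddSubgroup (Z0 S) :=
  AddSubgroup.closure {z | ∃ s₀ s₁ : Multiset S, IsLink S s₀ s₁ ∧ z = cyc s₀ - cyc s₁}

/-- The Chow group of zero-cycles of `S`. -/
abbrev CH0 (S : Set (ℙ ℂ (ι → ℂ))) : Type := Z0 S ⧸ ratTriv S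

/-- The degree of a zero-cycle. -/
def deg {S : Set (ℙ ℂ (ι → ℂ))} : Z0 S →+ ℤ := FreeAbelianGroup.lift fun _ => 1

end Pool.Agent.Chow0
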