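import Pool.Agent.Chow0.Transfer
import Pool.Agent.Kummer2.Family

/-!
# Polynomial correspondences act on classes of zero-cycles
-/

set_option autoImplicit false
set_option linter.unusedSectionVars false

open scoped LinearAlgebra.Projectivization
open Polynomial

namespace Pool.Agent.Chow0

variable {κ ι : Type} [Fintype κ] [Fintype ι] {V : Set (ℙ ℂ (κ → ℂ))} {V' : Set (ℙ ℂ (ι → ℂ))}

lemma chowForm_cons (p : ℙ ℂ (κ → ℂ)) (s : Multiset (ℙ ℂ (κ → ℂ))) :
    chowForm (p ::ₘ s) = linForm p.rep * chowForm s := by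
  simp [chowForm]

lemma linForm_isHomogeneous (v : κ → ℂ) : (linForm v).IsHomogeneous 1 :=
  MvPolynomial.IsHomogeneous.sum _ _ _ fun _ _ => MvPolynomial.isHomogeneous_C_mul_X _ _

lemma chowForm_isHomogeneous (s : Multiset (ℙ ℂ (κ → ℂ))) :
    (chowForm s).IsHomogeneous (Multiset.card s) := by
  induction s using Multiset.induction_on with
  | empty => simpa [chowForm] using MvPolynomial.isHomogeneous_one _ _
  | cons p s ih =>
    rw [chowForm_cons, Multiset.card_cons, add_comm]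
    exact (linForm_isHomogeneous _).mul ih

lemma chowForm_ne_zero (s : Multiset (ℙ ℂ (κ → ℂ))) : chowForm s ≠ 0 := by
  rw [chowForm, Ne, Multiset.prod_eq_zero_iff, Multiset.mem_map]
  rintro ⟨p, -, hp⟩
  exact linForm_rep_ne_zero p hp

lemma IsChowForm.ne_zero {G : MvPolynomial κ ℂ} {s : Multiset V} (h : IsChowForm V G s) :
    G ≠ 0 := by
  obtain ⟨c, hc, rfl⟩ := h
  refine mul_ne_zero ?_ (chowForm_ne_zero _)
  rw [Ne, MvPolynomial.C_eq_zero]
  exact hc

lemma IsChowForm.isHomogeneous {G : MvPolynomial κ ℂ} {s : Multiset V} (h : IsChowForm V G s) :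
    G.IsHomogeneous (Multiset.card s) := by
  obtain ⟨c, hc, rfl⟩ := h
  have h1 := chowForm_isHomogeneous (s.map Subtype.val)
  rw [Multiset.card_map] at h1
  exact h1.C_mul c

lemma eventually_ne_of_eval {B : Type} [CommRing B] [Algebra ℂ B] [IsDomain B]
    (hinj : Function.Injective (algebraMap ℂ B)) {G : B[X]} {t₀ : ℂ}
    (h : G.eval (algebraMap ℂ B t₀) ≠ 0) :
    ∀ᶠ t : ℂ in Filter.cofinite, G.eval (algebraMap ℂ B t) ≠ 0 := by
  have hne : G ≠ 0 := by
    rintro rfl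
    exact h eval_zero
  rw [Filter.eventually_cofinite]
  refine Set.Finite.of_finite_image (f := algebraMap ℂ B) ?_ hinj.injOn
  classical
  refine G.roots.toFinset.finite_toSet.subset ?_
  rintro _ ⟨t, ht, rfl⟩
  rw [Finset.mem_coe, Multiset.mem_toFinset, mem_roots hne]
  exact not_not.1 ht

/-- the degrees of the members of a family agree -/
lemma eventually_card {F : (MvPolynomial κ ℂ)[X]} {s : ℂ → Multiset V}
    {t₀ : ℂ} (h₀ : IsChowForm V (F.eval (MvPolynomial.C t₀)) (s t₀))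
    (h : ∀ᶠ t : ℂ in Filter.cofinite, IsChowForm V (F.eval (MvPolynomial.C t)) (s t)) :
    ∀ᶠ t : ℂ in Filter.cofinite, Multiset.card (s t) = Multiset.card (s t₀) := by
  set N := Multiset.card (s t₀) with hN
  obtain ⟨G, hG⟩ := exists_linear (MvPolynomial.homogeneousComponent (R := ℂ) (σ := κ) N) F
  have h1 : G.eval (algebraMap ℂ (MvPolynomial κ ℂ) t₀) ≠ 0 := by
    rw [hG]
    have h2 : (algebraMap ℂ (MvPolynomial κ ℂ)) t₀ = MvPolynomial.C t₀ := rfl
    rw [h2, MvPolynomial.homogeneousComponent_eq_self h₀.isHomogeneous]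
    exact h₀.ne_zero
  filter_upwards [h, eventually_ne_of_eval (MvPolynomial.C_injective _ _) h1] with t ht ht'
  rw [hG] at ht'
  have h2 : (algebraMap ℂ (MvPolynomial κ ℂ)) t = MvPolynomial.C t := rfl
  rw [h2] at ht'
  by_contra hne
  apply ht'
  rw [MvPolynomial.homogeneousComponent_of_mem (m := N)
    ((MvPolynomial.mem_homogeneousSubmodule _ _).2 ht.isHomogeneous), if_neg]
  exact fun h => hne h.symm

lemma exists_fin {α : Type} {N : ℕ} (m : Multiset α) (h : Multiset.card m = N) :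
    ∃ f : Fin N → α, (Finset.univ : Finset (Fin N)).val.map f = m := by
  subst h
  induction m using Quotient.inductionOn with
  | _ L =>
    refine ⟨fun i => L.get i, ?_⟩
    change ((Finset.univ : Finset (Fin L.length)).val.map L.get) = (L : Multiset α)
    rw [Fin.univ_val_map]
    simp

lemma eval_linForm (lam v : κ → ℂ) :
    MvPolynomial.eval lam (linForm v) = ∑ i, v i * lam i := by
  simp [linForm]

/-- **Polynomial correspondences preserve rational equivalence.** -/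
theorem cl_transfer (Φ : MvPolynomial κ (MvPolynomial ι ℂ)) (Ψ : MvPolynomial κ ℂ)
    (hΦ : ∀ (c : V) (u : κ → ℂ), IsRep u (c : ℙ ℂ (κ → ℂ)) → MvPolynomial.eval u Ψ ≠ 0 →
      ∃ s' : Multiset V', IsChowForm V' (MvPolynomial.eval (fun i => MvPolynomial.C (u i)) Φ) s')
    (cls : V → CH0 V')
    (hcls : ∀ (c : V) (u : κ → ℂ), IsRep u (c : ℙ ℂ (κ → ℂ)) → MvPolynomial.eval u Ψ ≠ 0 →
      ∀ s' : Multiset V', IsChowForm V' (MvPolynomial.eval (fun i => MvPolynomial.C (u i)) Φ) s' →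
        cl s' = cls c)
    {s₀ s₁ : Multiset V} (h : IsLink V s₀ s₁)
    (h0 : ∀ c ∈ s₀, ∀ u, IsRep u (c : ℙ ℂ (κ → ℂ)) → MvPolynomial.eval u Ψ ≠ 0)
    (h1 : ∀ c ∈ s₁, ∀ u, IsRep u (c : ℙ ℂ (κ → ℂ)) → MvPolynomial.eval u Ψ ≠ 0) :
    (s₀.map cls).sum = (s₁.map cls).sum := by
  classical
  obtain ⟨F, hF, hF0, hF1⟩ := h
  -- the members of the family
  obtain ⟨s, hs0, hs1, hs⟩ : ∃ s : ℂ → Multiset V, s 0 = s₀ ∧ s 1 = s₁ ∧
      ∀ t, (∃ s', IsChowForm V (F.eval (MvPolynomial.C t)) s') →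
        IsChowForm V (F.eval (MvPolynomial.C t)) (s t) := by
    refine ⟨fun t => if t = 0 then s₀ else if t = 1 then s₁ else
      if h : ∃ s', IsChowForm V (F.eval (MvPolynomial.C t)) s' then h.choose else 0,
      if_pos rfl, ?_, ?_⟩
    · beta_reduce
      rw [if_neg one_ne_zero, if_pos rfl]
    · intro t ht
      beta_reduce
      by_cases h0 : t = 0
      · rw [if_pos h0, h0]
        exact hF0
      · rw [if_neg h0]
        by_cases h1 : t = 1
        · rw [if_pos h1, h1]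
          exact hF1
        · rw [if_neg h1, dif_pos ht]
          exact ht.choose_spec
  have hsF : ∀ᶠ t : ℂ in Filter.cofinite, IsChowForm V (F.eval (MvPolynomial.C t)) (s t) := by
    filter_upwards [hF] with t ht
    exact hs t ht
  have hsF0 : IsChowForm V (F.eval (MvPolynomial.C 0)) (s 0) := by rw [hs0]; exact hF0
  have hsF1 : IsChowForm V (F.eval (MvPolynomial.C 1)) (s 1) := by rw [hs1]; exact hF1
  -- the degrees
  set N := Multiset.card (s 0) with hN
  have hcard := eventually_card hsF0 hsF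
  have hcard1 : Multiset.card (s 1) = N := by
    obtain ⟨t, ht, ht'⟩ := (hcard.and (eventually_card hsF1 hsF)).exists
    rw [← ht', ht]
  -- a linear form not vanishing at the points for `t = 0`, `1`
  obtain ⟨lam, hlam⟩ : ∃ lam : κ → ℂ,
      MvPolynomial.eval lam (F.eval (MvPolynomial.C 0) * F.eval (MvPolynomial.C 1)) ≠ 0 := by
    by_contra hcon
    push Not at hcon
    have : F.eval (MvPolynomial.C 0) * F.eval (MvPolynomial.C 1) = 0 :=
      MvPolynomial.funext fun x => by rw [hcon x, map_zero]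
    exact mul_ne_zero hsF0.ne_zero hsF1.ne_zero this
  rw [map_mul] at hlam
  obtain ⟨hlam0, hlam1⟩ := mul_ne_zero_iff.1 hlam
  set δ : ℂ[X] := F.map (MvPolynomial.eval lam) with hδ
  have hδe : ∀ t, δ.eval t = MvPolynomial.eval lam (F.eval (MvPolynomial.C t)) := by
    intro t
    have : t = MvPolynomial.eval lam (MvPolynomial.C t) := by rw [MvPolynomial.eval_C]
    conv_lhs => rw [hδ, this]
    rw [eval_map, eval₂_at_apply]
  have hδ0 : δ.eval 0 ≠ 0 := by rw [hδe]; exact hlam0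
  have hδ1 : δ.eval 1 ≠ 0 := by rw [hδe]; exact hlam1
  -- the domain
  set D : Set ℂ := {t | IsChowForm V (F.eval (MvPolynomial.C t)) (s t) ∧
    Multiset.card (s t) = N ∧ δ.eval t ≠ 0} with hD
  have hδev : ∀ᶠ t : ℂ in Filter.cofinite, δ.eval t ≠ 0 :=
    eventually_ne_of_eval (B := ℂ) (fun _ _ h => h) (t₀ := 0) hδ0
  have hDev : ∀ᶠ t : ℂ in Filter.cofinite, t ∈ D := by
    filter_upwards [hsF, hcard, hδev] with t h1 h2 h3
    exact ⟨h1, h2, h3⟩
  have hD0 : (0 : ℂ) ∈ D := ⟨hsF0, rfl, hδ0⟩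
  have hD1 : (1 : ℂ) ∈ D := ⟨hsF1, hcard1, hδ1⟩
  -- the points
  have hpts : ∀ t, ∃ p : Fin N → V, t ∈ D → (Finset.univ : Finset (Fin N)).val.map p = s t := by
    intro t
    by_cases ht : t ∈ D
    · obtain ⟨p, hp⟩ := exists_fin (s t) ht.2.1
      exact ⟨p, fun _ => hp⟩
    · have hne : ∃ p : Fin N → V, True := by
        obtain ⟨p, _⟩ := exists_fin (s 0) rfl
        exact ⟨p, trivial⟩
      exact ⟨hne.choose, fun h => absurd h ht⟩
  choose p hp using hpts
  set b : ℂ → Fin N → ℂ := fun t c => ∑ i, (p t c : ℙ ℂ (κ → ℂ)).rep i * lam i with hb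
  set u : ℂ → Fin N → κ → ℂ := fun t c => (b t c)⁻¹ • (p t c : ℙ ℂ (κ → ℂ)).rep with hu
  have hFp : ∀ t ∈ D, ∃ a : ℂ, a ≠ 0 ∧ F.eval (MvPolynomial.C t) =
      MvPolynomial.C a * ∏ c, linForm (p t c : ℙ ℂ (κ → ℂ)).rep := by
    intro t ht
    obtain ⟨a, ha, haF⟩ := ht.1
    refine ⟨a, ha, ?_⟩
    rw [haF, ← hp t ht, Multiset.map_map, chowForm, Multiset.map_map]
    rfl
  have hbne : ∀ t ∈ D, ∀ c, b t c ≠ 0 := by
    intro t ht c
    obtain ⟨a, ha, haF⟩ := hFp t ht
    have h2 := ht.2.2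
    rw [hδe, haF, map_mul, map_prod] at h2
    have h3 := Finset.prod_ne_zero_iff.1 (mul_ne_zero_iff.1 h2).2 c (Finset.mem_univ c)
    rw [eval_linForm] at h3
    exact h3
  have hnorm : ∀ t ∈ D, ∀ c, ∑ i, u t c i * lam i = 1 := by
    intro t ht c
    have h2 : ∑ i, u t c i * lam i = (b t c)⁻¹ * b t c := by
      rw [hu, hb]
      simp only [Pi.smul_apply, smul_eq_mul, Finset.mul_sum]
      exact Finset.sum_congr rfl fun i _ => by ring
    rw [h2, inv_mul_cancel₀ (hbne t ht c)]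
  have hFu : ∀ t ∈ D, F.eval (MvPolynomial.C t) =
      MvPolynomial.C (δ.eval t) * ∏ c, linForm (u t c) := by
    intro t ht
    obtain ⟨a, ha, haF⟩ := hFp t ht
    have h2 : δ.eval t = a * ∏ c, b t c := by
      rw [hδe, haF, map_mul, map_prod, MvPolynomial.eval_C]
      congr 1
      exact Finset.prod_congr rfl fun c _ => eval_linForm _ _
    have h3 : ∏ c, linForm (u t c) = MvPolynomial.C (∏ c, (b t c)⁻¹) *
        ∏ c, linForm (p t c : ℙ ℂ (κ → ℂ)).rep := by
      rw [map_prod, ← Finset.prod_mul_distrib]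
      refine Finset.prod_congr rfl fun c _ => ?_
      rw [hu]
      exact linForm_smul _ _
    rw [haF, h2, h3, ← mul_assoc, ← MvPolynomial.C_mul]
    congr 2
    rw [mul_assoc, ← Finset.prod_mul_distrib, Finset.prod_eq_one, mul_one]
    intro c _
    exact mul_inv_cancel₀ (hbne t ht c)
  have hrep : ∀ t ∈ D, ∀ c, IsRep (u t c) (p t c : ℙ ℂ (κ → ℂ)) := by
    intro t ht c
    have hne : u t c ≠ 0 :=
      smul_ne_zero (inv_ne_zero (hbne t ht c)) (p t c : ℙ ℂ (κ → ℂ)).rep_nonzero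
    refine ⟨hne, ?_⟩
    conv_rhs => rw [← (p t c : ℙ ℂ (κ → ℂ)).mk_rep]
    rw [Projectivization.mk_eq_mk_iff']
    exact ⟨(b t c)⁻¹, rfl⟩
  -- symmetric functions
  obtain ⟨K, G, hG⟩ := rat_prod hnorm hFu Φ
  obtain ⟨K', G', hG'⟩ := rat_prod hnorm hFu Ψ
  have hgoodall : ∀ t ∈ D, (∀ c, MvPolynomial.eval (u t c) Ψ ≠ 0) →
      G'.eval (algebraMap ℂ ℂ t) ≠ 0 := by
    intro t ht hc
    rw [← hG' t ht]
    exact smul_ne_zero (pow_ne_zero _ ht.2.2) (Finset.prod_ne_zero_iff.2 fun c _ => hc c)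
  have hgood0 : ∀ c, MvPolynomial.eval (u 0 c) Ψ ≠ 0 := by
    intro c
    refine h0 (p 0 c) ?_ _ (hrep 0 hD0 c)
    rw [← hs0, ← hp 0 hD0]
    exact Multiset.mem_map_of_mem _ (Finset.mem_univ_val c)
  have hgood1 : ∀ c, MvPolynomial.eval (u 1 c) Ψ ≠ 0 := by
    intro c
    refine h1 (p 1 c) ?_ _ (hrep 1 hD1 c)
    rw [← hs1, ← hp 1 hD1]
    exact Multiset.mem_map_of_mem _ (Finset.mem_univ_val c)
  have hG'ev := eventually_ne_of_eval (B := ℂ) (fun _ _ h => h) (hgoodall 0 hD0 hgood0)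
  -- members of the image family
  have hmem : ∀ t ∈ D, (∀ c, MvPolynomial.eval (u t c) Ψ ≠ 0) →
      ∃ σ : Fin N → Multiset V', (∀ c, IsChowForm V'
        (MvPolynomial.eval (fun i => MvPolynomial.C (u t c i)) Φ) (σ c)) ∧
        IsChowForm V' (G.eval (MvPolynomial.C t)) (∑ c, σ c) := by
    intro t ht hc
    choose σ hσ using fun c => hΦ (p t c) (u t c) (hrep t ht c) (hc c)
    refine ⟨σ, hσ, ?_⟩
    have h2 : Multiset.Rel (fun (c : Fin N) (s' : Multiset V') => IsChowForm V'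
        (MvPolynomial.eval (fun i => MvPolynomial.C (u t c i)) Φ) s')
        (Finset.univ : Finset (Fin N)).val ((Finset.univ : Finset (Fin N)).val.map σ) := by
      rw [Multiset.rel_map_right]
      exact Multiset.rel_refl_of_refl_on fun c _ => hσ c
    have h3 := isChowForm_prod h2
    have h4 := h3.smul (pow_ne_zero K ht.2.2)
    have h5 : G.eval (MvPolynomial.C t) = MvPolynomial.C ((δ.eval t) ^ K) *
        ∏ c, MvPolynomial.eval (fun i => MvPolynomial.C (u t c i)) Φ := by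
      have h6 := hG t ht
      have h7 : (algebraMap ℂ (MvPolynomial ι ℂ)) t = MvPolynomial.C t := rfl
      rw [h7] at h6
      rw [← h6, Algebra.smul_def]
      rfl
    rw [h5]
    exact h4
  obtain ⟨σ₀, hσ₀, hσ₀'⟩ := hmem 0 hD0 hgood0
  obtain ⟨σ₁, hσ₁, hσ₁'⟩ := hmem 1 hD1 hgood1
  have hlink : IsLink V' (∑ c, σ₀ c) (∑ c, σ₁ c) := by
    refine ⟨G, ?_, hσ₀', hσ₁'⟩
    filter_upwards [hDev, hG'ev] with t ht ht'
    have h2 : ∀ c, MvPolynomial.eval (u t c) Ψ ≠ 0 := by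
      intro c hc
      apply ht'
      rw [← hG' t ht]
      have h3 : ∏ c, MvPolynomial.eval (fun i => (algebraMap ℂ ℂ) (u t c i)) Ψ = 0 :=
        Finset.prod_eq_zero (Finset.mem_univ c) hc
      beta_reduce
      rw [h3, smul_zero]
    obtain ⟨σ, _, hσ⟩ := hmem t ht h2
    exact ⟨_, hσ⟩
  have hcl := hlink.cl_eq
  have hclsum : ∀ σ : Fin N → Multiset V', cl (∑ c, σ c) = ∑ c, cl (σ c) := by
    intro σ
    induction (Finset.univ : Finset (Fin N)) using Finset.induction_on with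
    | empty => simp [cl]
    | insert a s ha ih => rw [Finset.sum_insert ha, Finset.sum_insert ha, cl_add, ih]
  rw [hclsum, hclsum] at hcl
  have h2 : ∀ c, cl (σ₀ c) = cls (p 0 c) := fun c =>
    hcls (p 0 c) (u 0 c) (hrep 0 hD0 c) (hgood0 c) _ (hσ₀ c)
  have h3 : ∀ c, cl (σ₁ c) = cls (p 1 c) := fun c =>
    hcls (p 1 c) (u 1 c) (hrep 1 hD1 c) (hgood1 c) _ (hσ₁ c)
  rw [Finset.sum_congr rfl fun c _ => h2 c, Finset.sum_congr rfl fun c _ => h3 c] at hcl
  rw [← hs0, ← hs1, ← hp 0 hD0, ← hp 1 hD1, Multiset.map_map, Multiset.map_map]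
  exact hcl

end Pool.Agent.Chow0
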