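import Pool.Agent.Chow0.Defs

/-!
# Pencils of zero-cycles
-/

set_option autoImplicit false

open scoped LinearAlgebra.Projectivization
open Polynomial

namespace Pool.Agent.Chow0

variable {ι : Type} [Fintype ι] {S : Set (ℙ ℂ (ι → ℂ))}

/-- the class of a point -/
def pt (p : S) : CH0 S := QuotientAddGroup.mk (FreeAbelianGroup.of p)

/-- the class of an effective cycle -/
def cl (s : Multiset S) : CH0 S := (s.map pt).sum

lemma mk_cyc (s : Multiset S) : (QuotientAddGroup.mk (cyc s) : CH0 S) = cl s := by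
  have h := (QuotientAddGroup.mk' (ratTriv S)).map_multiset_sum (s.map FreeAbelianGroup.of)
  rw [Multiset.map_map] at h
  exact h

lemma IsLink.cl_eq {s₀ s₁ : Multiset S} (h : IsLink S s₀ s₁) : cl s₀ = cl s₁ := by
  rw [← mk_cyc, ← mk_cyc, QuotientAddGroup.eq]
  have h1 : cyc s₀ - cyc s₁ ∈ ratTriv S := AddSubgroup.subset_closure ⟨s₀, s₁, h, rfl⟩
  have h2 := (ratTriv S).neg_mem h1
  rwa [neg_sub, sub_eq_neg_add] at h2

lemma cl_add (s t : Multiset S) : cl (s + t) = cl s + cl t := by simp [cl]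

lemma cl_cons (p : S) (t : Multiset S) : cl (p ::ₘ t) = pt p + cl t := by simp [cl]

lemma cl_zero : cl (0 : Multiset S) = 0 := by simp [cl]

/-- the vector `v` represents the point `p` -/
def IsRep (v : ι → ℂ) (p : ℙ ℂ (ι → ℂ)) : Prop := ∃ hv : v ≠ 0, Projectivization.mk ℂ v hv = p

lemma linForm_smul (c : ℂ) (v : ι → ℂ) :
    linForm (c • v) = MvPolynomial.C c * linForm v := by
  simp [linForm, Finset.mul_sum, mul_assoc]

lemma linForm_zero : linForm (0 : ι → ℂ) = 0 := by simp [linForm]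

lemma linForm_ne_zero {v : ι → ℂ} (hv : v ≠ 0) : linForm v ≠ 0 := by
  classical
  obtain ⟨i, hi⟩ := Function.ne_iff.1 hv
  intro h
  apply hi
  have h1 := congrArg (MvPolynomial.eval (Pi.single i (1 : ℂ))) h
  simpa [linForm, Pi.single_apply] using h1

lemma IsRep.linForm_eq {v : ι → ℂ} {p : ℙ ℂ (ι → ℂ)} (h : IsRep v p) :
    ∃ c : ℂ, c ≠ 0 ∧ linForm v = MvPolynomial.C c * linForm p.rep := by
  obtain ⟨hv, rfl⟩ := h
  obtain ⟨a, ha⟩ := Projectivization.exists_smul_eq_mk_rep ℂ v hv
  refine ⟨(a⁻¹ : ℂˣ), Units.ne_zero _, ?_⟩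
  rw [← ha, Units.smul_def, linForm_smul, ← mul_assoc, ← MvPolynomial.C_mul, ← Units.val_mul,
    inv_mul_cancel, Units.val_one, MvPolynomial.C_1, one_mul]

lemma linForm_rep_ne_zero (p : ℙ ℂ (ι → ℂ)) : linForm p.rep ≠ 0 :=
  linForm_ne_zero p.rep_nonzero

lemma rel_prod {α : Type} {h : α → ι → ℂ} {r : Multiset α} {s : Multiset S}
    (hr : Multiset.Rel (fun u (p : S) => IsRep (h u) p) r s) :
    ∃ c : ℂ, c ≠ 0 ∧ (r.map fun u => linForm (h u)).prod =
      MvPolynomial.C c * chowForm (s.map Subtype.val) := by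
  induction hr with
  | zero => exact ⟨1, one_ne_zero, by simp [chowForm]⟩
  | @cons u p r s hu _ ih =>
    obtain ⟨c, hc, hcs⟩ := ih
    obtain ⟨a, ha, has⟩ := hu.linForm_eq
    refine ⟨a * c, mul_ne_zero ha hc, ?_⟩
    rw [Multiset.map_cons, Multiset.prod_cons, hcs, has]
    simp only [chowForm, Multiset.map_cons, Multiset.prod_cons, MvPolynomial.C_mul]
    ring

/-- the specialisation of a polynomial in `u` with coefficients in `ℂ[t]` -/
noncomputable def spec (t : ℂ) (Q : ℂ[X][X]) : ℂ[X] := Q.map (evalRingHom t)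

/-- the coefficients inclusion -/
noncomputable def cmap : ℂ[X] →+* (MvPolynomial ι ℂ)[X] := mapRingHom (MvPolynomial.C)

omit [Fintype ι] in
lemma eval_cmap (t : ℂ) (q : ℂ[X]) :
    (cmap q : (MvPolynomial ι ℂ)[X]).eval (MvPolynomial.C t) = MvPolynomial.C (q.eval t) := by
  simp [cmap, eval_map, eval₂_at_apply]

/-- the polynomial whose value at `t` is the Chow form of the member of the pencil -/
noncomputable def pencilForm (d m : ℕ) (Q : ℂ[X][X]) (H : ι → ℂ[X][X]) : (MvPolynomial ι ℂ)[X] :=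
  resultant (Q.map cmap) (∑ i, C (C (MvPolynomial.X i)) * (H i).map cmap) d m

lemma eval_pencilForm {d m : ℕ} {Q : ℂ[X][X]} {H : ι → ℂ[X][X]} (hQ : Q.natDegree ≤ d)
    (hH : ∀ i, (H i).natDegree ≤ m) {t : ℂ} (ht : (Q.coeff d).eval t ≠ 0) :
    (pencilForm d m Q H).eval (MvPolynomial.C t) =
      MvPolynomial.C (((Q.coeff d).eval t) ^ m) *
        ((spec t Q).roots.map fun u => linForm fun i => (spec t (H i)).eval u).prod := by
  have h1 : (pencilForm d m Q H).eval (MvPolynomial.C t) =
      evalRingHom (MvPolynomial.C t) (pencilForm d m Q H) := rfl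
  have hcomp : (evalRingHom (MvPolynomial.C t)).comp (cmap (ι := ι)) =
      (MvPolynomial.C : ℂ →+* MvPolynomial ι ℂ).comp (evalRingHom t) := by
    ext q
    · simp [cmap]
    · simp [cmap]
  have hQm : (Q.map (cmap (ι := ι))).map (evalRingHom (MvPolynomial.C t)) =
      (spec t Q).map MvPolynomial.C := by
    rw [Polynomial.map_map, hcomp, spec, Polynomial.map_map]
  have hdeg : (spec t Q).natDegree = d := by
    apply le_antisymm
    · exact (natDegree_map_le).trans hQ
    · apply le_natDegree_of_ne_zero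
      rw [spec, coeff_map]
      exact ht
  have hlc : (spec t Q).leadingCoeff = (Q.coeff d).eval t := by
    rw [leadingCoeff, hdeg, spec, coeff_map]
    rfl
  have hinj : Function.Injective (MvPolynomial.C : ℂ →+* MvPolynomial ι ℂ) :=
    MvPolynomial.C_injective _ _
  have hspl : (spec t Q).Splits := IsAlgClosed.splits _
  have hdeg' : ((spec t Q).map (MvPolynomial.C : ℂ →+* MvPolynomial ι ℂ)).natDegree = d := by
    rw [natDegree_map_eq_of_injective hinj, hdeg]
  have hroots : ((spec t Q).map (MvPolynomial.C : ℂ →+* MvPolynomial ι ℂ)).roots =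
      (spec t Q).roots.map MvPolynomial.C := by
    exact (hspl.roots_map MvPolynomial.C)
  rw [h1, pencilForm, ← resultant_map_map, hQm]
  have hG : ((∑ i, C (C (MvPolynomial.X i)) * (H i).map cmap :
      (MvPolynomial ι ℂ)[X][X])).map (evalRingHom (MvPolynomial.C t)) =
      ∑ i, C (MvPolynomial.X i) * (spec t (H i)).map MvPolynomial.C := by
    rw [Polynomial.map_sum]
    refine Finset.sum_congr rfl fun i _ => ?_
    rw [Polynomial.map_mul, map_C, Polynomial.map_map, hcomp, spec, Polynomial.map_map]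
    simp
  rw [hG]
  have hGdeg : (∑ i, C (MvPolynomial.X i) * (spec t (H i)).map MvPolynomial.C :
      (MvPolynomial ι ℂ)[X]).natDegree ≤ m := by
    refine natDegree_sum_le_of_forall_le _ _ fun i _ => ?_
    refine (natDegree_C_mul_le _ _).trans ((natDegree_map_le).trans ((natDegree_map_le).trans
      (hH i)))
  have key := resultant_eq_prod_eval ((spec t Q).map (MvPolynomial.C : ℂ →+* MvPolynomial ι ℂ))
    _ m hGdeg (hspl.map _)
  rw [hdeg', hroots, leadingCoeff_map_of_injective hinj, hlc, Multiset.map_map] at key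
  rw [key, ← MvPolynomial.C_pow]
  congr 2
  refine Multiset.map_congr rfl fun u _ => ?_
  simp only [Function.comp_apply, eval_finsetSum, eval_mul, eval_C, linForm]
  refine Finset.sum_congr rfl fun i _ => ?_
  rw [eval_map, eval₂_at_apply, mul_comm]

/-- **Pencil lemma.** -/
theorem cl_eq_of_pencil {d m : ℕ} {Q : ℂ[X][X]} {H : ι → ℂ[X][X]} (hQ : Q.natDegree ≤ d)
    (hH : ∀ i, (H i).natDegree ≤ m)
    (hS : ∀ t u : ℂ, (spec t Q).eval u = 0 → ∀ hv : (fun i => (spec t (H i)).eval u) ≠ 0,
      Projectivization.mk ℂ _ hv ∈ S)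
    (h0 : (Q.coeff d).eval 0 ≠ 0) (h1 : (Q.coeff d).eval 1 ≠ 0) {s₀ s₁ : Multiset S}
    (hs₀ : Multiset.Rel (fun u (p : S) => IsRep (fun i => (spec 0 (H i)).eval u) p)
      (spec 0 Q).roots s₀)
    (hs₁ : Multiset.Rel (fun u (p : S) => IsRep (fun i => (spec 1 (H i)).eval u) p)
      (spec 1 Q).roots s₁) : cl s₀ = cl s₁ := by
  have hgood : ∀ t : ℂ, (Q.coeff d).eval t ≠ 0 → ∀ s : Multiset S,
      Multiset.Rel (fun u (p : S) => IsRep (fun i => (spec t (H i)).eval u) p)
        (spec t Q).roots s → IsChowForm S ((pencilForm d m Q H).eval (MvPolynomial.C t)) s := by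
    intro t ht s hs
    obtain ⟨c, hc, hcs⟩ := rel_prod hs
    refine ⟨((Q.coeff d).eval t) ^ m * c, mul_ne_zero (pow_ne_zero _ ht) hc, ?_⟩
    rw [eval_pencilForm hQ hH ht, hcs, MvPolynomial.C_mul, mul_assoc]
  have hg0 := hgood 0 h0 s₀ hs₀
  have hg1 := hgood 1 h1 s₁ hs₁
  apply IsLink.cl_eq
  refine ⟨pencilForm d m Q H, ?_, hg0, hg1⟩
  -- the good parameters are cofinite
  have hne : pencilForm d m Q H ≠ 0 := by
    intro h
    obtain ⟨c, hc, hcs⟩ := hg0
    rw [h, eval_zero] at hcs
    have : MvPolynomial.C c * chowForm (s₀.map Subtype.val) ≠ 0 := by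
      refine mul_ne_zero ?_ ?_
      · rw [Ne, MvPolynomial.C_eq_zero]; exact hc
      · rw [chowForm, Ne, Multiset.prod_eq_zero_iff, Multiset.mem_map]
        rintro ⟨p, -, hp⟩
        exact linForm_rep_ne_zero p hp
    exact this hcs.symm
  have hfin1 : {t : ℂ | (pencilForm d m Q H).eval (MvPolynomial.C t) = 0}.Finite := by
    have hinj : Function.Injective (MvPolynomial.C : ℂ → MvPolynomial ι ℂ) :=
      MvPolynomial.C_injective _ _
    refine Set.Finite.of_finite_image (f := (MvPolynomial.C : ℂ → MvPolynomial ι ℂ)) ?_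
      (hinj.injOn)
    refine (pencilForm d m Q H).roots.toFinset.finite_toSet.subset ?_
    rintro _ ⟨t, ht, rfl⟩
    rw [Finset.mem_coe, Multiset.mem_toFinset, mem_roots hne]
    exact ht
  have hQd : Q.coeff d ≠ 0 := by
    intro h
    rw [h, eval_zero] at h0
    exact h0 rfl
  have hfin2 : {t : ℂ | (Q.coeff d).eval t = 0}.Finite := by
    refine (Q.coeff d).roots.toFinset.finite_toSet.subset ?_
    intro t ht
    rw [Finset.mem_coe, Multiset.mem_toFinset, mem_roots hQd]
    exact ht
  rw [Filter.eventually_cofinite]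
  refine (hfin1.union hfin2).subset ?_
  intro t ht
  by_contra hcon
  apply ht
  simp only [Set.mem_union, Set.mem_ofPred_eq, not_or] at hcon
  have hall : ∀ u ∈ (spec t Q).roots, (fun i => (spec t (H i)).eval u) ≠ 0 := by
    intro u hu h
    apply hcon.1
    rw [eval_pencilForm hQ hH hcon.2]
    have : (0 : MvPolynomial ι ℂ) ∈ (spec t Q).roots.map
        fun u => linForm fun i => (spec t (H i)).eval u := by
      rw [Multiset.mem_map]
      exact ⟨u, hu, by rw [h]; exact linForm_zero⟩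
    rw [Multiset.prod_eq_zero this, mul_zero]
  have hex : ∃ s : Multiset S, Multiset.Rel
      (fun u (p : S) => IsRep (fun i => (spec t (H i)).eval u) p) (spec t Q).roots s := by
    have : ∀ r : Multiset ℂ, (∀ u ∈ r, u ∈ (spec t Q).roots) → ∃ s : Multiset S, Multiset.Rel
        (fun u (p : S) => IsRep (fun i => (spec t (H i)).eval u) p) r s := by
      intro r
      induction r using Multiset.induction_on with
      | empty => exact fun _ => ⟨0, Multiset.Rel.zero⟩
      | cons u r ih =>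
        intro hr
        obtain ⟨s, hs⟩ := ih fun v hv => hr v (Multiset.mem_cons_of_mem hv)
        obtain ⟨p, hp⟩ : ∃ p : S, IsRep (fun i => (spec t (H i)).eval u) p := by
          have hu := hr u (Multiset.mem_cons_self u r)
          exact ⟨⟨_, hS t u ((mem_roots'.1 hu).2) (hall u hu)⟩, hall u hu, rfl⟩
        exact ⟨p ::ₘ s, Multiset.Rel.cons hp hs⟩
    exact this _ fun _ h => h
  obtain ⟨s, hs⟩ := hex
  exact ⟨s, hgood t hcon.2 s hs⟩

end Pool.Agent.Chow0
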