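import Pool.Agent.Chow0.Pencil

/-!
# Symmetric functions of the points of a family of zero-cycles
-/

set_option autoImplicit false
set_option linter.unusedSectionVars false

open scoped LinearAlgebra.Projectivization
open Polynomial

namespace Pool.Agent.Chow0

section Rat

variable {A B : Type} [CommRing A] [Algebra ℂ A] [CommRing B] [Algebra ℂ B]

/-- a function which becomes polynomial on `D` after multiplication by a power of `δ` -/
def Rat (δ : ℂ[X]) (D : Set ℂ) (φ : ℂ → B) : Prop :=
  ∃ (K : ℕ) (G : B[X]), ∀ t ∈ D, (δ.eval t) ^ K • φ t = G.eval (algebraMap ℂ B t)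

variable {δ : ℂ[X]} {D : Set ℂ}

/-- the polynomial `δ ^ K` with coefficients in `B` -/
lemma eval_map_algebraMap (f : ℂ[X]) (t : ℂ) :
    (f.map (algebraMap ℂ B)).eval (algebraMap ℂ B t) = algebraMap ℂ B (f.eval t) := by
  rw [eval_map, eval₂_at_apply]

lemma Rat.raise {φ : ℂ → B} {K : ℕ} {G : B[X]}
    (h : ∀ t ∈ D, (δ.eval t) ^ K • φ t = G.eval (algebraMap ℂ B t)) (L : ℕ) :
    ∃ G' : B[X], ∀ t ∈ D, (δ.eval t) ^ (K + L) • φ t = G'.eval (algebraMap ℂ B t) := by
  refine ⟨(δ ^ L).map (algebraMap ℂ B) * G, fun t ht => ?_⟩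
  rw [eval_mul, eval_map_algebraMap, ← h t ht, pow_add, mul_comm ((eval t δ) ^ K), mul_smul,
    Algebra.smul_def ((eval t δ) ^ L), eval_pow]

lemma Rat.const (b : B) : Rat δ D fun _ => b := ⟨0, C b, fun t _ => by simp⟩

lemma Rat.add {φ ψ : ℂ → B} (h : Rat δ D φ) (h' : Rat δ D ψ) : Rat δ D fun t => φ t + ψ t := by
  obtain ⟨K, G, hG⟩ := h
  obtain ⟨L, H, hH⟩ := h'
  obtain ⟨G', hG'⟩ := Rat.raise hG L
  obtain ⟨H', hH'⟩ := Rat.raise hH K
  refine ⟨K + L, G' + H', fun t ht => ?_⟩
  rw [smul_add, eval_add, hG' t ht, add_comm K L, hH' t ht]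

lemma Rat.mul {φ ψ : ℂ → B} (h : Rat δ D φ) (h' : Rat δ D ψ) : Rat δ D fun t => φ t * ψ t := by
  obtain ⟨K, G, hG⟩ := h
  obtain ⟨L, H, hH⟩ := h'
  refine ⟨K + L, G * H, fun t ht => ?_⟩
  rw [eval_mul, ← hG t ht, ← hH t ht, pow_add, smul_mul_smul_comm]

lemma Rat.neg {φ : ℂ → B} (h : Rat δ D φ) : Rat δ D fun t => -φ t := by
  obtain ⟨K, G, hG⟩ := h
  exact ⟨K, -G, fun t ht => by rw [smul_neg, eval_neg, hG t ht]⟩

lemma Rat.sum {α : Type} (s : Finset α) {φ : α → ℂ → B} (h : ∀ a ∈ s, Rat δ D (φ a)) :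
    Rat δ D fun t => ∑ a ∈ s, φ a t := by
  classical
  induction s using Finset.induction_on with
  | empty => simpa using Rat.const (0 : B)
  | insert a s ha ih =>
    simp only [Finset.sum_insert ha]
    exact (h a (Finset.mem_insert_self a s)).add (ih fun b hb => h b (Finset.mem_insert_of_mem hb))

lemma Rat.congr {φ ψ : ℂ → B} (h : Rat δ D φ) (h' : ∀ t ∈ D, φ t = ψ t) : Rat δ D ψ := by
  obtain ⟨K, G, hG⟩ := h
  exact ⟨K, G, fun t ht => by rw [← h' t ht, hG t ht]⟩

/-- linear maps preserve polynomial families -/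
lemma exists_linear (L : A →ₗ[ℂ] B) (F : A[X]) :
    ∃ G : B[X], ∀ t : ℂ, G.eval (algebraMap ℂ B t) = L (F.eval (algebraMap ℂ A t)) := by
  refine ⟨∑ j ∈ F.support, C (L (F.coeff j)) * X ^ j, fun t => ?_⟩
  rw [eval_finsetSum, eval_eq_sum, Polynomial.sum, map_sum]
  refine Finset.sum_congr rfl fun j _ => ?_
  rw [eval_mul, eval_C, eval_pow, eval_X, ← map_pow, ← map_pow, mul_comm, ← Algebra.smul_def,
    mul_comm (F.coeff j), ← Algebra.smul_def, map_smul]

lemma Rat.linear {φ : ℂ → A} (h : Rat δ D φ) (L : A →ₗ[ℂ] B) : Rat δ D fun t => L (φ t) := by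
  obtain ⟨K, F, hF⟩ := h
  obtain ⟨G, hG⟩ := exists_linear L F
  exact ⟨K, G, fun t ht => by rw [hG, ← hF t ht, map_smul]⟩

end Rat

section Newton

variable {B : Type} [CommRing B] [Algebra ℂ B] {δ : ℂ[X]} {D : Set ℂ} {N : ℕ}

lemma rat_psum {a : ℂ → Fin N → B}
    (h : ∀ k, Rat δ D fun t => MvPolynomial.aeval (a t) (MvPolynomial.esymm (Fin N) ℂ k)) (k : ℕ) :
    Rat δ D fun t => MvPolynomial.aeval (a t) (MvPolynomial.psum (Fin N) ℂ k) := by
  induction k using Nat.strong_induction_on with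
  | _ k ih =>
    rcases Nat.eq_zero_or_pos k with h0 | h0
    · subst h0
      refine (Rat.const (δ := δ) (D := D) (N : B)).congr fun t _ => ?_
      rw [MvPolynomial.psum_zero]
      simp
    · have h1 : Rat δ D fun t => (-1) ^ (k + 1) * (k : B) *
          MvPolynomial.aeval (a t) (MvPolynomial.esymm (Fin N) ℂ k) +
          -∑ x ∈ (Finset.HasAntidiagonal.antidiagonal k).filter fun x => x.1 ∈ Set.Ioo 0 k,
            (-1) ^ x.1 * MvPolynomial.aeval (a t) (MvPolynomial.esymm (Fin N) ℂ x.1) *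
              MvPolynomial.aeval (a t) (MvPolynomial.psum (Fin N) ℂ x.2) := by
        refine ((Rat.const _).mul (h k)).add (Rat.neg (Rat.sum _ fun x hx => ?_))
        refine ((Rat.const _).mul (h x.1)).mul (ih x.2 ?_)
        rw [Finset.mem_filter, Finset.HasAntidiagonal.mem_antidiagonal, Set.mem_Ioo] at hx
        omega
      refine h1.congr fun t _ => ?_
      rw [MvPolynomial.psum_eq_mul_esymm_sub_sum (Fin N) ℂ k h0]
      simp only [map_sub, map_mul, map_sum, map_pow, map_neg, map_one, map_natCast]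
      ring

lemma rat_esymm {a : ℂ → Fin N → B}
    (h : ∀ k, Rat δ D fun t => MvPolynomial.aeval (a t) (MvPolynomial.psum (Fin N) ℂ k)) (k : ℕ) :
    Rat δ D fun t => MvPolynomial.aeval (a t) (MvPolynomial.esymm (Fin N) ℂ k) := by
  induction k using Nat.strong_induction_on with
  | _ k ih =>
    rcases Nat.eq_zero_or_pos k with h0 | h0
    · subst h0
      refine (Rat.const (δ := δ) (D := D) (1 : B)).congr fun t _ => ?_
      rw [MvPolynomial.esymm_zero, map_one]
    · have h1 : Rat δ D fun t => (-1) ^ (k + 1) *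
          ∑ x ∈ (Finset.HasAntidiagonal.antidiagonal k).filter fun x => x.1 < k,
            (-1) ^ x.1 * MvPolynomial.aeval (a t) (MvPolynomial.esymm (Fin N) ℂ x.1) *
              MvPolynomial.aeval (a t) (MvPolynomial.psum (Fin N) ℂ x.2) := by
        refine (Rat.const _).mul (Rat.sum _ fun x hx => ?_)
        refine ((Rat.const _).mul (ih x.1 ?_)).mul (h x.2)
        rw [Finset.mem_filter] at hx
        exact hx.2
      have h2 := (Rat.const (δ := δ) (D := D) (algebraMap ℂ B (k : ℂ)⁻¹)).mul h1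
      refine h2.congr fun t _ => ?_
      have h3 := congrArg (MvPolynomial.aeval (a t)) (MvPolynomial.mul_esymm_eq_sum (Fin N) ℂ k)
      simp only [map_mul, map_sum, map_pow, map_neg, map_one, map_natCast] at h3
      rw [← h3, ← mul_assoc]
      have h4 : algebraMap ℂ B (k : ℂ)⁻¹ * (k : B) = 1 := by
        have h5 : ((k : ℂ)⁻¹ * k) = 1 := inv_mul_cancel₀ (by
          rw [Nat.cast_ne_zero]
          omega)
        have h6 := congrArg (algebraMap ℂ B) h5
        rw [map_mul, map_natCast, map_one] at h6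
        exact h6
      rw [h4, one_mul]

end Newton

variable {κ : Type} [Fintype κ]

/-- the substitution `λ ↦ Y λ₀ + λ` -/
noncomputable def shiftHom (lam : κ → ℂ) :
    MvPolynomial κ ℂ →ₐ[ℂ] (MvPolynomial κ ℂ)[X] :=
  MvPolynomial.aeval fun i => X * C (MvPolynomial.C (lam i)) + C (MvPolynomial.X i)

lemma shiftHom_linForm {lam u : κ → ℂ} (h : ∑ i, u i * lam i = 1) :
    shiftHom lam (linForm u) = X + C (linForm u) := by
  have h1 : (∑ i, MvPolynomial.C (u i) * MvPolynomial.C (lam i) : MvPolynomial κ ℂ) = 1 := by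
    simp only [← MvPolynomial.C_mul]
    rw [← map_sum, h, map_one]
  rw [linForm, map_sum]
  simp only [map_mul, shiftHom, MvPolynomial.aeval_X, MvPolynomial.algHom_C]
  have h2 : ∀ i, (algebraMap ℂ (MvPolynomial κ ℂ)[X]) (u i) *
      (X * C (MvPolynomial.C (lam i)) + C (MvPolynomial.X i)) =
      X * C (MvPolynomial.C (u i) * MvPolynomial.C (lam i)) +
        C (MvPolynomial.C (u i) * MvPolynomial.X i) := by
    intro i
    have : (algebraMap ℂ (MvPolynomial κ ℂ)[X]) (u i) = C (MvPolynomial.C (u i)) := rfl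
    rw [this, C_mul, C_mul]
    ring
  rw [Finset.sum_congr rfl fun i _ => h2 i, Finset.sum_add_distrib, ← Finset.mul_sum, ← map_sum,
    ← map_sum, h1, map_one, mul_one]

/-- **Symmetric functions of the points of a family.** -/
theorem rat_prod {F : (MvPolynomial κ ℂ)[X]} {δ : ℂ[X]} {D : Set ℂ} {N : ℕ}
    {u : ℂ → Fin N → κ → ℂ} {lam : κ → ℂ}
    (hnorm : ∀ t ∈ D, ∀ c, ∑ i, u t c i * lam i = 1)
    (hF : ∀ t ∈ D, F.eval (MvPolynomial.C t) =
      MvPolynomial.C (δ.eval t) * ∏ c, linForm (u t c))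
    {R : Type} [CommRing R] [Algebra ℂ R] (Φ : MvPolynomial κ R) :
    Rat δ D fun t => ∏ c, MvPolynomial.eval (fun i => algebraMap ℂ R (u t c i)) Φ := by
  classical
  -- elementary symmetric functions of the linear forms
  have h1 : ∀ k, Rat δ D fun t => MvPolynomial.aeval (fun c => linForm (u t c))
      (MvPolynomial.esymm (Fin N) ℂ k) := by
    intro k
    rcases Nat.lt_or_ge N k with hk | hk
    · refine (Rat.const (δ := δ) (D := D) (0 : MvPolynomial κ ℂ)).congr fun t _ => ?_
      rw [MvPolynomial.esymm, Finset.powersetCard_eq_empty.2 (by simpa using hk), Finset.sum_empty,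
        map_zero]
    · let L : MvPolynomial κ ℂ →ₗ[ℂ] MvPolynomial κ ℂ :=
        { toFun := fun p => (shiftHom lam p).coeff (N - k)
          map_add' := fun p q => by rw [map_add, coeff_add]
          map_smul' := fun c p => by rw [map_smul, coeff_smul, RingHom.id_apply] }
      obtain ⟨G, hG⟩ := exists_linear L F
      refine ⟨1, G, fun t ht => ?_⟩
      rw [hG]
      have h2 : (algebraMap ℂ (MvPolynomial κ ℂ)) t = MvPolynomial.C t := rfl
      rw [h2, hF t ht]
      change _ = (shiftHom lam (MvPolynomial.C (δ.eval t) * ∏ c, linForm (u t c))).coeff (N - k)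
      rw [map_mul, map_prod, MvPolynomial.algHom_C]
      have h3 : ∏ c, shiftHom lam (linForm (u t c)) = ∏ c, (X + C (linForm (u t c))) :=
        Finset.prod_congr rfl fun c _ => shiftHom_linForm (hnorm t ht c)
      have h4 : (algebraMap ℂ (MvPolynomial κ ℂ)[X]) (eval t δ) =
          C (MvPolynomial.C (eval t δ)) := rfl
      rw [h3, h4, coeff_C_mul, Finset.prod_X_add_C_coeff _ _ (by simp), MvPolynomial.esymm]
      beta_reduce
      rw [map_sum, pow_one, Algebra.smul_def]
      have h5 : (Finset.univ : Finset (Fin N)).card - (N - k) = k := by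
        rw [Finset.card_univ, Fintype.card_fin]
        omega
      rw [h5]
      congr 1
      refine Finset.sum_congr rfl fun s _ => ?_
      rw [map_prod]
      exact Finset.prod_congr rfl fun c _ => MvPolynomial.aeval_X _ _
  -- power sums
  have h2 := rat_psum h1
  -- monomials
  have h3 : ∀ d : κ →₀ ℕ, Rat δ D fun t => ∑ c, ∏ i, u t c i ^ d i := by
    intro d
    let L : MvPolynomial κ ℂ →ₗ[ℂ] ℂ :=
      { toFun := fun p => ((d.multinomial : ℂ))⁻¹ * p.coeff d
        map_add' := fun p q => by rw [MvPolynomial.coeff_add, mul_add]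
        map_smul' := fun c p => by
          rw [MvPolynomial.coeff_smul, RingHom.id_apply, smul_eq_mul, smul_eq_mul]
          ring }
    refine ((h2 (d.sum fun _ m => m)).linear L).congr fun t _ => ?_
    change ((d.multinomial : ℂ))⁻¹ * MvPolynomial.coeff d _ = _
    rw [MvPolynomial.psum, map_sum, MvPolynomial.coeff_sum, Finset.mul_sum]
    refine Finset.sum_congr rfl fun c _ => ?_
    rw [map_pow, MvPolynomial.aeval_X]
    have h4 : linForm (u t c) = ∑ i, u t c i • (MvPolynomial.X i : MvPolynomial κ ℂ) := by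
      rw [linForm]
      refine Finset.sum_congr rfl fun i _ => ?_
      rw [MvPolynomial.smul_eq_C_mul]
    rw [h4, MvPolynomial.coeff_linearCombination_X_pow_of_fintype, if_pos rfl,
      Finsupp.prod_fintype _ _ (fun i => pow_zero _), ← mul_assoc, inv_mul_cancel₀, one_mul]
    rw [Finsupp.multinomial_eq]
    exact_mod_cast (Nat.multinomial_pos _ _).ne'
  -- power sums of the values of polynomials
  have h4 : ∀ Ψ : MvPolynomial κ R,
      Rat δ D fun t => ∑ c, MvPolynomial.eval (fun i => algebraMap ℂ R (u t c i)) Ψ := by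
    intro Ψ
    have h5 : Rat δ D fun t => ∑ d ∈ Ψ.support, Ψ.coeff d *
        algebraMap ℂ R (∑ c, ∏ i, u t c i ^ d i) :=
      Rat.sum _ fun d _ => (Rat.const _).mul ((h3 d).linear (Algebra.linearMap ℂ R))
    refine h5.congr fun t _ => ?_
    have h6 : ∀ c, MvPolynomial.eval (fun i => algebraMap ℂ R (u t c i)) Ψ =
        ∑ d ∈ Ψ.support, Ψ.coeff d * algebraMap ℂ R (∏ i, u t c i ^ d i) := by
      intro c
      rw [MvPolynomial.eval_eq']
      refine Finset.sum_congr rfl fun d _ => ?_
      rw [map_prod]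
      simp only [map_pow]
    rw [Finset.sum_congr rfl fun c _ => h6 c, Finset.sum_comm]
    refine Finset.sum_congr rfl fun d _ => ?_
    rw [map_sum, Finset.mul_sum]
  have h5 : ∀ k, Rat δ D fun t => MvPolynomial.aeval
      (fun c => MvPolynomial.eval (fun i => algebraMap ℂ R (u t c i)) Φ)
      (MvPolynomial.psum (Fin N) ℂ k) := by
    intro k
    refine (h4 (Φ ^ k)).congr fun t _ => ?_
    rw [MvPolynomial.psum, map_sum]
    refine Finset.sum_congr rfl fun c _ => ?_
    rw [map_pow, map_pow, MvPolynomial.aeval_X]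
  refine (rat_esymm h5 N).congr fun t _ => ?_
  rw [MvPolynomial.esymm]
  have h6 : Finset.powersetCard N (Finset.univ : Finset (Fin N)) = {Finset.univ} := by
    have h7 := Finset.powersetCard_self (Finset.univ : Finset (Fin N))
    rwa [Finset.card_univ, Fintype.card_fin] at h7
  rw [h6, Finset.sum_singleton, map_prod]
  exact Finset.prod_congr rfl fun c _ => MvPolynomial.aeval_X _ _

end Pool.Agent.Chow0
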